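import Pool.Agent.Helper70.Matching.Specs4

/-! Packet M-C12 (MP_fb8750_pr): joint CLT for the sum of the block functionals and the number of
points. helper80. -/

set_option autoImplicit false
open Finset Filter Topology

namespace Pool.Agent.Helper80.Matching

open Pool.Agent.Helper70.Matching

noncomputable section

lemma isWt_bw {V : Type} {p : ℝ} (h0 : 0 ≤ p) (h1 : p ≤ 1) : IsWt (bw p : V → Bool → ℝ) where
  nonneg := fun k a => by unfold bw; split <;> linarith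
  sum_one := fun k => by simp [bw]

lemma cnt_dependsOn {V : Type} (A : Finset V) :
    DependsOn (fun ω : V → Bool => (cnt A ω : ℝ)) (A : Set V) := by
  intro x y hxy
  show ((cnt A x : ℕ) : ℝ) = ((cnt A y : ℕ) : ℝ)
  have : A.filter (fun v => x v = true) = A.filter (fun v => y v = true) :=
    filter_congr fun v hv => by rw [hxy v (by simpa using hv)]
  unfold cnt
  rw [this]

lemma Fj_dependsOn (Fn : Set ℂ → Multiset ℂ → ℝ) (h : ℝ) (rs : ℕ) {B N : ℕ} (j : Fin B × Fin B) :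
    DependsOn (Fj Fn h rs (N := N) j) (((blk rs j).sites N : Finset (Site N)) : Set (Site N)) := by
  intro x y hxy
  unfold Fj pts
  have : ((blk rs j).sites N).filter (fun v => x v = true)
      = ((blk rs j).sites N).filter (fun v => y v = true) :=
    filter_congr fun v hv => by rw [hxy v (by simpa using hv)]
  rw [this]

/-- block of a site -/
def bOf {N B rs : ℕ} (hN : N = B * rs) (v : Site N) : Fin B × Fin B :=
  (⟨(v.1 : ℕ) / rs, Nat.div_lt_of_lt_mul (by rw [mul_comm, ← hN]; exact v.1.2)⟩,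
   ⟨(v.2 : ℕ) / rs, Nat.div_lt_of_lt_mul (by rw [mul_comm, ← hN]; exact v.2.2)⟩)

lemma lt_div_succ_mul {a rs : ℕ} (hrs : 0 < rs) : a < (a / rs + 1) * rs := by
  have e1 := Nat.div_add_mod a rs
  have e2 := Nat.mod_lt a hrs
  have e3 : (a / rs + 1) * rs = rs * (a / rs) + rs := by ring
  omega

lemma mem_sites_iff {N B rs : ℕ} (hN : N = B * rs) (hrs : 0 < rs) (v : Site N) (j : Fin B × Fin B) :
    v ∈ (blk rs j).sites N ↔ bOf hN v = j := by
  unfold NBox.sites blk bOf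
  simp only [mem_filter, mem_univ, true_and]
  rw [Prod.ext_iff, Fin.ext_iff, Fin.ext_iff]
  simp only
  constructor
  · rintro ⟨h1, h2, h3, h4⟩
    exact ⟨Nat.div_eq_of_lt_le h1 h2, Nat.div_eq_of_lt_le h3 h4⟩
  · rintro ⟨h1, h2⟩
    rw [← h1, ← h2]
    exact ⟨Nat.div_mul_le_self _ _, lt_div_succ_mul hrs, Nat.div_mul_le_self _ _,
      lt_div_succ_mul hrs⟩

lemma sum_Nj {N B rs : ℕ} (hN : N = B * rs) (hrs : 0 < rs) (ω : Site N → Bool) :
    ∑ j : Fin B × Fin B, (Nj rs j ω : ℝ) = (Nw ω : ℝ) := by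
  unfold Nj Nw cnt
  rw [card_eq_sum_card_fiberwise (f := bOf hN) (s := univ.filter (fun v => ω v = true))
    (t := univ) (fun _ _ => mem_coe.mpr (mem_univ _))]
  push_cast
  refine sum_congr rfl fun j _ => ?_
  congr 2
  ext v
  simp only [mem_filter, mem_univ, true_and]
  rw [mem_sites_iff hN hrs, and_comm]

lemma card_sites {N B rs : ℕ} (hN : N = B * rs) (j : Fin B × Fin B) :
    rs * rs ≤ ((blk rs j).sites N).card := by
  have hj1 : (j.1 : ℕ) * rs + rs ≤ N := by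
    have := j.1.2
    rw [hN]; nlinarith
  have hj2 : (j.2 : ℕ) * rs + rs ≤ N := by
    have := j.2.2
    rw [hN]; nlinarith
  let e : Fin rs × Fin rs → Site N := fun a =>
    (⟨(j.1 : ℕ) * rs + a.1, by have := a.1.2; omega⟩, ⟨(j.2 : ℕ) * rs + a.2, by have := a.2.2; omega⟩)
  have he : Function.Injective e := by
    intro a b hab
    simp only [e, Prod.mk.injEq, Fin.mk.injEq] at hab
    ext
    · omega
    · omega
  have : (univ.image e).card = rs * rs := by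
    rw [card_image_of_injective _ he]; simp
  rw [← this]
  refine card_le_card fun v hv => ?_
  obtain ⟨a, -, rfl⟩ := mem_image.mp hv
  have h1 := a.1.2
  have h2 := a.2.2
  simp only [NBox.sites, blk, mem_filter, mem_univ, true_and, e]
  refine ⟨by omega, ?_, by omega, ?_⟩ <;> · rw [add_mul]; omega

lemma abs_add_cube (a b : ℝ) : |a + b| ^ 3 ≤ 4 * (|a| ^ 3 + |b| ^ 3) := by
  have h := abs_add_le a b
  have ha := abs_nonneg a
  have hb := abs_nonneg b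
  calc |a+b|^3 ≤ (|a|+|b|)^3 := by gcongr
   _ ≤ _ := by nlinarith [mul_nonneg (add_nonneg ha hb) (sq_nonneg (|a|-|b|))]

section
variable {K α : Type} [Fintype K] [DecidableEq K] [Fintype α] {w : K → α → ℝ}

lemma Cv_eq (hw : IsWt w) (f g : (K → α) → ℝ) :
    Cv w f g = Ex w (fun u => (f u - Ex w f) * (g u - Ex w g)) := by
  have : ∀ u, (f u - Ex w f) * (g u - Ex w g)
      = f u * g u - (Ex w f * g u + (Ex w g * f u + (- (Ex w f * Ex w g)))) := by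
    intro u; ring
  simp only [this]
  rw [Ex_sub, Ex_add, Ex_add, Ex_mul_left, Ex_mul_left, Ex_const hw]
  unfold Cv
  ring

lemma Cv_sq_le (hw : IsWt w) (f g : (K → α) → ℝ) : (Cv w f g) ^ 2 ≤ Vr w f * Vr w g := by
  rw [Cv_eq hw]
  exact cauchy_Ex hw _ _

lemma Cv_sub_smul (hw : IsWt w) (f g : (K → α) → ℝ) (a : ℝ) :
    Cv w (fun u => f u - a * g u) g = Cv w f g - a * Vr w g := by
  rw [Vr_eq hw]
  unfold Cv
  have : ∀ u, (f u - a * g u) * g u = f u * g u - a * (g u) ^ 2 := by intro u; ring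
  simp only [this]
  rw [Ex_sub, Ex_sub, Ex_mul_left, Ex_mul_left]
  ring

/-- second moment of a combination -/
lemma Ex_comb_sq (hw : IsWt w) (Y X : (K → α) → ℝ) (a b : ℝ) :
    Ex w (fun u => (a * (Y u - Ex w Y) + b * (X u - Ex w X)) ^ 2)
      = a ^ 2 * Vr w Y + 2 * a * b * Cv w Y X + b ^ 2 * Vr w X := by
  rw [Cv_eq hw]
  unfold Vr
  have : ∀ u, (a * (Y u - Ex w Y) + b * (X u - Ex w X)) ^ 2
      = a ^ 2 * (Y u - Ex w Y) ^ 2 + (2 * a * b * ((Y u - Ex w Y) * (X u - Ex w X))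
        + b ^ 2 * (X u - Ex w X) ^ 2) := by intro u; ring
  simp only [this]
  rw [Ex_add, Ex_add, Ex_mul_left, Ex_mul_left, Ex_mul_left]
  ring

lemma Ex_comb_cube (hw : IsWt w) (Y X : (K → α) → ℝ) (a b : ℝ) :
    Ex w (fun u => |a * (Y u - Ex w Y) + b * (X u - Ex w X)| ^ 3)
      ≤ 4 * (|a| ^ 3 * Ex w (fun u => |Y u - Ex w Y| ^ 3)
        + |b| ^ 3 * Ex w (fun u => |X u - Ex w X| ^ 3)) := by
  rw [← Ex_mul_left, ← Ex_mul_left, ← Ex_add, ← Ex_mul_left]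
  refine Ex_mono hw fun u => ?_
  refine (abs_add_cube _ _).trans (le_of_eq ?_)
  rw [abs_mul, abs_mul]
  ring

end

lemma exp_sub_le {a b : ℝ} (ha : 0 ≤ a) (hb : 0 ≤ b) : |Real.exp (-a) - Real.exp (-b)| ≤ |a - b| := by
  wlog hab : a ≤ b generalizing a b
  · rw [abs_sub_comm, abs_sub_comm a b]
    exact this hb ha (le_of_not_ge hab)
  have h1 : Real.exp (-b) ≤ Real.exp (-a) := Real.exp_le_exp.mpr (by linarith)
  rw [abs_of_nonneg (by linarith), abs_sub_comm, abs_of_nonneg (by linarith)]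
  have h2 : Real.exp (-b) = Real.exp (-a) * Real.exp (a - b) := by rw [← Real.exp_add]; ring_nf
  have h3 := Real.add_one_le_exp (a - b)
  have h4 : Real.exp (-a) ≤ 1 := Real.exp_le_one_iff.mpr (by linarith)
  have h5 : 0 < Real.exp (-a) := Real.exp_pos _
  rw [h2]
  nlinarith


section core
variable {N B rs : ℕ} {h : ℝ}

/-- moments of the blocks, specialised -/
structure Mom (Fn : Set ℂ → Multiset ℂ → ℝ) (C' : ℝ) (N B rs : ℕ) (h : ℝ) : Prop where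
  m1 : ∀ (j : Fin B × Fin B) (α : ℝ), Ex (bw (h ^ 2)) (fun ω : Site N → Bool =>
      |(Fj Fn h rs j ω - α * (Nj rs j ω : ℝ)) -
        Ex (bw (h ^ 2)) (fun ω : Site N → Bool => Fj Fn h rs j ω - α * (Nj rs j ω : ℝ))| ^ 3)
      ≤ C' * (rs * h + |α|) ^ 3 * (rs * h) ^ 6
  m2 : ∀ j : Fin B × Fin B,
    Ex (bw (h ^ 2)) (fun ω : Site N → Bool => |(Nj rs j ω : ℝ) - (rs * h) ^ 2| ^ 3) ≤ C' * (rs * h) ^ 6
  m3 : ∀ j : Fin B × Fin B,
    Ex (bw (h ^ 2)) (fun ω : Site N → Bool => (Nj rs j ω : ℝ)) = (rs * h) ^ 2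
  m4 : ∀ j : Fin B × Fin B,
    Vr (bw (h ^ 2)) (fun ω : Site N → Bool => (Nj rs j ω : ℝ)) = (rs * h) ^ 2 * (1 - h ^ 2)
  m5 : ∀ j : Fin B × Fin B,
    Vr (bw (h ^ 2)) (fun ω : Site N → Bool => Fj Fn h rs j ω) ≤ C' * (rs * h) ^ 6

lemma alpha_bound {Fn : Set ℂ → Multiset ℂ → ℝ} {C' : ℝ} (hC' : 0 < C') (hB : 0 < B)
    (hh2 : h ^ 2 ≤ 1 / 2) (hr : 1 ≤ (rs : ℝ) * h)
    (hm : Mom Fn C' N B rs h) (α : ℝ)
    (hα : α * ∑ j : Fin B × Fin B, Vr (bw (h ^ 2)) (fun ω : Site N → Bool => (Nj rs j ω : ℝ))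
      = ∑ j : Fin B × Fin B, Cv (bw (h ^ 2)) (fun ω : Site N → Bool => Fj Fn h rs j ω)
        (fun ω => (Nj rs j ω : ℝ))) :
    |α| ≤ 2 * Real.sqrt C' * (rs * h) ^ 2 := by
  have hw : IsWt (bw (h ^ 2) : Site N → Bool → ℝ) := isWt_bw (sq_nonneg _) (by linarith)
  set r : ℝ := rs * h with hrdef
  have hBr : (0 : ℝ) < B := by exact_mod_cast hB
  have hcard : ((univ : Finset (Fin B × Fin B)).card : ℝ) = (B : ℝ) * B := by
    simp [Finset.card_univ, Fintype.card_prod]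
  have hV : ∑ j : Fin B × Fin B, Vr (bw (h ^ 2)) (fun ω : Site N → Bool => (Nj rs j ω : ℝ))
      = (B : ℝ) * B * (r ^ 2 * (1 - h ^ 2)) := by
    rw [sum_congr rfl fun j _ => hm.m4 j, sum_const, nsmul_eq_mul, hcard]
  have hsq : Real.sqrt C' ^ 2 = C' := Real.sq_sqrt hC'.le
  have hCv : ∀ j : Fin B × Fin B, |Cv (bw (h ^ 2)) (fun ω : Site N → Bool => Fj Fn h rs j ω)
        (fun ω => (Nj rs j ω : ℝ))| ≤ Real.sqrt C' * r ^ 4 := by
    intro j
    refine abs_le_of_sq_le_sq ?_ (by positivity)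
    refine (Cv_sq_le hw _ _).trans ?_
    rw [hm.m4 j]
    have h1 := hm.m5 j
    rw [← hrdef] at h1
    have h2 : r ^ 2 * (1 - h ^ 2) ≤ r ^ 2 := by
      have := sq_nonneg r
      nlinarith [sq_nonneg h, mul_nonneg this (sq_nonneg h)]
    have h3 : 0 ≤ r ^ 2 * (1 - h ^ 2) := mul_nonneg (sq_nonneg _) (by linarith)
    calc _ ≤ (C' * r ^ 6) * r ^ 2 := by gcongr
      _ = (Real.sqrt C' * r ^ 4) ^ 2 := by rw [mul_pow (Real.sqrt C'), hsq]; ring
  have hsum : |∑ j : Fin B × Fin B, Cv (bw (h ^ 2)) (fun ω : Site N → Bool => Fj Fn h rs j ω)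
        (fun ω => (Nj rs j ω : ℝ))| ≤ (B : ℝ) * B * (Real.sqrt C' * r ^ 4) := by
    refine (abs_sum_le_sum_abs _ _).trans ((sum_le_sum fun j _ => hCv j).trans ?_)
    rw [sum_const, nsmul_eq_mul, hcard]
  rw [← hα, hV, abs_mul] at hsum
  have hr0 : 0 < r := by linarith
  have hD : (B : ℝ) * B * (r ^ 2 / 2) ≤ |(B : ℝ) * B * (r ^ 2 * (1 - h ^ 2))| := by
    rw [abs_of_nonneg (mul_nonneg (by positivity) (mul_nonneg (sq_nonneg _) (by linarith)))]
    have : r ^ 2 / 2 ≤ r ^ 2 * (1 - h ^ 2) := by nlinarith [sq_nonneg r]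
    gcongr
  have h1 : |α| * ((B : ℝ) * B * (r ^ 2 / 2)) ≤ (B : ℝ) * B * (Real.sqrt C' * r ^ 4) :=
    (mul_le_mul_of_nonneg_left hD (abs_nonneg _)).trans hsum
  have h2 : (B : ℝ) * B * (Real.sqrt C' * r ^ 4)
      = (2 * Real.sqrt C' * r ^ 2) * ((B : ℝ) * B * (r ^ 2 / 2)) := by ring
  rw [h2] at h1
  exact le_of_mul_le_mul_right h1 (by positivity)

/-- the constant -/
def KK (C' c T : ℝ) : ℝ := 4 * T ^ 3 * C' * ((1 + 2 * Real.sqrt C') ^ 3 / c ^ 3 + 1)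

/-- the block variables -/
def xx (Fn : Set ℂ → Multiset ℂ → ℝ) (N B rs : ℕ) (h α b t u : ℝ) (j : Fin B × Fin B)
    (ω : Site N → Bool) : ℝ :=
  (t / b) * ((fun ω : Site N → Bool => Fj Fn h rs j ω - α * (Nj rs j ω : ℝ)) ω -
      Ex (bw (h ^ 2)) (fun ω : Site N → Bool => Fj Fn h rs j ω - α * (Nj rs j ω : ℝ)))
    + (u / (B * (rs * h))) * ((fun ω : Site N → Bool => (Nj rs j ω : ℝ)) ω -
      Ex (bw (h ^ 2)) (fun ω : Site N → Bool => (Nj rs j ω : ℝ)))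

lemma beta_bound {Fn : Set ℂ → Multiset ℂ → ℝ} {C' c T : ℝ} (hC' : 0 < C') (hc : 0 < c)
    (hB : 0 < B) (hh2 : h ^ 2 ≤ 1 / 2) (hr : 1 ≤ (rs : ℝ) * h)
    (hm : Mom Fn C' N B rs h) {α b : ℝ} (hα : |α| ≤ 2 * Real.sqrt C' * (rs * h) ^ 2)
    (hbc : c * (B * (rs * h)) ≤ b) {t u : ℝ} (ht : |t| ≤ T) (hu : |u| ≤ T) :
    ∑ j : Fin B × Fin B, Ex (bw (h ^ 2)) (fun ω => |xx Fn N B rs h α b t u j ω| ^ 3)
      ≤ KK C' c T * ((rs * h) ^ 9 / B) := by
  have hw : IsWt (bw (h ^ 2) : Site N → Bool → ℝ) := isWt_bw (sq_nonneg _) (by linarith)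
  set r : ℝ := rs * h with hrdef
  have hr0 : 0 < r := by linarith
  have hBr : (0 : ℝ) < B := by exact_mod_cast hB
  have hT : 0 ≤ T := (abs_nonneg t).trans ht
  have hcard : ((univ : Finset (Fin B × Fin B)).card : ℝ) = (B : ℝ) * B := by
    simp [Finset.card_univ, Fintype.card_prod]
  have hb : 0 < b := lt_of_lt_of_le (by positivity) hbc
  have hj : ∀ j : Fin B × Fin B, Ex (bw (h ^ 2)) (fun ω => |xx Fn N B rs h α b t u j ω| ^ 3)
      ≤ 4 * ((T / (c * (B * r))) ^ 3 * (C' * ((1 + 2 * Real.sqrt C') * r ^ 2) ^ 3 * r ^ 6)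
        + (T / (B * r)) ^ 3 * (C' * r ^ 12)) := by
    intro j
    refine (Ex_comb_cube hw _ _ _ _).trans ?_
    have h1 := hm.m1 j α
    have h2 := hm.m2 j
    rw [← hm.m3 j] at h2
    have e1 : |t / b| ≤ T / (c * (B * r)) := by
      rw [abs_div, abs_of_pos hb]
      exact div_le_div₀ hT ht (by positivity) hbc
    have e2 : |u / (B * r)| ≤ T / (B * r) := by
      rw [abs_div, abs_of_pos (by positivity : 0 < (B : ℝ) * r)]
      gcongr
    have e3 : r + |α| ≤ (1 + 2 * Real.sqrt C') * r ^ 2 := by nlinarith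
    have e4 : C' * r ^ 6 ≤ C' * r ^ 12 := by
      have : r ^ 6 ≤ r ^ 12 := pow_le_pow_right₀ hr (by norm_num)
      gcongr
    have e5 : 0 ≤ Ex (bw (h ^ 2)) (fun ω : Site N → Bool =>
      |(Fj Fn h rs j ω - α * (Nj rs j ω : ℝ)) -
        Ex (bw (h ^ 2)) (fun ω : Site N → Bool => Fj Fn h rs j ω - α * (Nj rs j ω : ℝ))| ^ 3) :=
      Ex_nonneg hw fun _ => by positivity
    have e6 : 0 ≤ Ex (bw (h ^ 2)) (fun ω : Site N → Bool => |(Nj rs j ω : ℝ) -
      Ex (bw (h ^ 2)) (fun ω : Site N → Bool => (Nj rs j ω : ℝ))| ^ 3) :=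
      Ex_nonneg hw fun _ => by positivity
    have e7 : C' * (r + |α|) ^ 3 * r ^ 6 ≤ C' * ((1 + 2 * Real.sqrt C') * r ^ 2) ^ 3 * r ^ 6 := by
      have : (r + |α|) ^ 3 ≤ ((1 + 2 * Real.sqrt C') * r ^ 2) ^ 3 :=
        pow_le_pow_left₀ (by positivity) e3 3
      gcongr
    have f1 := mul_le_mul (pow_le_pow_left₀ (abs_nonneg _) e1 3) (h1.trans e7) e5 (by positivity)
    have f2 := mul_le_mul (pow_le_pow_left₀ (abs_nonneg _) e2 3) (h2.trans e4) e6 (by positivity)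
    linarith
  refine (sum_le_sum fun j _ => hj j).trans (le_of_eq ?_)
  rw [sum_const, nsmul_eq_mul, hcard]
  unfold KK
  field_simp
  try ring

lemma tau_eq {Fn : Set ℂ → Multiset ℂ → ℝ} {C' : ℝ}
    (hB : 0 < B) (hh2 : h ^ 2 ≤ 1 / 2) (hr : 1 ≤ (rs : ℝ) * h)
    (hm : Mom Fn C' N B rs h) {α b : ℝ}
    (hα : α * ∑ j : Fin B × Fin B, Vr (bw (h ^ 2)) (fun ω : Site N → Bool => (Nj rs j ω : ℝ))
      = ∑ j : Fin B × Fin B, Cv (bw (h ^ 2)) (fun ω : Site N → Bool => Fj Fn h rs j ω)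
        (fun ω => (Nj rs j ω : ℝ))) (hb : 0 < b)
    (hb2 : b ^ 2 = ∑ j : Fin B × Fin B, Vr (bw (h ^ 2))
      (fun ω : Site N → Bool => Fj Fn h rs j ω - α * (Nj rs j ω : ℝ))) (t u : ℝ) :
    ∑ j : Fin B × Fin B, Ex (bw (h ^ 2)) (fun ω => (xx Fn N B rs h α b t u j ω) ^ 2)
      = t ^ 2 + u ^ 2 * (1 - h ^ 2) := by
  have hw : IsWt (bw (h ^ 2) : Site N → Bool → ℝ) := isWt_bw (sq_nonneg _) (by linarith)
  set r : ℝ := rs * h with hrdef
  have hr0 : 0 < r := by linarith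
  have hBr : (0 : ℝ) < B := by exact_mod_cast hB
  have hcard : ((univ : Finset (Fin B × Fin B)).card : ℝ) = (B : ℝ) * B := by
    simp [Finset.card_univ, Fintype.card_prod]
  have hj : ∀ j : Fin B × Fin B, Ex (bw (h ^ 2)) (fun ω => (xx Fn N B rs h α b t u j ω) ^ 2)
      = (t / b) ^ 2 * Vr (bw (h ^ 2))
        (fun ω : Site N → Bool => Fj Fn h rs j ω - α * (Nj rs j ω : ℝ))
      + 2 * (t / b) * (u / (B * r)) * (Cv (bw (h ^ 2)) (fun ω : Site N → Bool => Fj Fn h rs j ω)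
        (fun ω => (Nj rs j ω : ℝ)) - α * Vr (bw (h ^ 2)) (fun ω : Site N → Bool => (Nj rs j ω : ℝ)))
      + (u / (B * r)) ^ 2 * Vr (bw (h ^ 2)) (fun ω : Site N → Bool => (Nj rs j ω : ℝ)) := by
    intro j
    rw [← Cv_sub_smul hw]
    exact Ex_comb_sq hw _ _ _ _
  rw [sum_congr rfl fun j _ => hj j, sum_add_distrib, sum_add_distrib, ← mul_sum, ← mul_sum,
    ← mul_sum, sum_sub_distrib, ← mul_sum, ← hb2, hα, sub_self, mul_zero, add_zero,
    sum_congr rfl fun j _ => hm.m4 j, sum_const, nsmul_eq_mul, hcard, ← hrdef]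
  field_simp

lemma sum_xx {Fn : Set ℂ → Multiset ℂ → ℝ} {C' : ℝ} (hN : N = B * rs) (hrs : 0 < rs)
    (hm : Mom Fn C' N B rs h) {α b : ℝ} (t u : ℝ) (ω : Site N → Bool) :
    ∑ j : Fin B × Fin B, xx Fn N B rs h α b t u j ω
      = t * (Sw Fn h rs B ω - Ex (bw (h ^ 2)) (fun ω : Site N → Bool => Sw Fn h rs B ω)
          - α * ((Nw ω : ℝ) - (B * (rs * h)) ^ 2)) / b
        + u * ((Nw ω : ℝ) - (B * (rs * h)) ^ 2) / (B * (rs * h)) := by
  have hcard : ((univ : Finset (Fin B × Fin B)).card : ℝ) = (B : ℝ) * B := by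
    simp [Finset.card_univ, Fintype.card_prod]
  have hE : Ex (bw (h ^ 2)) (fun ω : Site N → Bool => Sw Fn h rs B ω)
      = ∑ j : Fin B × Fin B, Ex (bw (h ^ 2)) (fun ω : Site N → Bool => Fj Fn h rs j ω) := by
    unfold Sw; exact Ex_sum _ _
  have hY : ∀ j : Fin B × Fin B,
      Ex (bw (h ^ 2)) (fun ω : Site N → Bool => Fj Fn h rs j ω - α * (Nj rs j ω : ℝ))
      = Ex (bw (h ^ 2)) (fun ω : Site N → Bool => Fj Fn h rs j ω) - α * (rs * h) ^ 2 := by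
    intro j
    rw [Ex_sub, Ex_mul_left, hm.m3 j]
  unfold xx
  simp only [hY, hm.m3]
  rw [sum_add_distrib, ← mul_sum, ← mul_sum, sum_sub_distrib, sum_sub_distrib, sum_sub_distrib,
    sum_sub_distrib, ← mul_sum, sum_Nj hN hrs, sum_const, sum_const, nsmul_eq_mul, nsmul_eq_mul,
    hcard, hE]
  unfold Sw
  ring

lemma core {Fn : Set ℂ → Multiset ℂ → ℝ} {C' c T : ℝ} (h1 : Spec_blockCLT) (hC' : 0 < C')
    (hc : 0 < c) (hN : N = B * rs) (hrs : 0 < rs) (hh : 0 < h)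
    (hB : 0 < B) (hh2 : h ^ 2 ≤ 1 / 2) (hr : 1 ≤ (rs : ℝ) * h)
    (hm : Mom Fn C' N B rs h) {α b : ℝ}
    (hα : α * ∑ j : Fin B × Fin B, Vr (bw (h ^ 2)) (fun ω : Site N → Bool => (Nj rs j ω : ℝ))
      = ∑ j : Fin B × Fin B, Cv (bw (h ^ 2)) (fun ω : Site N → Bool => Fj Fn h rs j ω)
        (fun ω => (Nj rs j ω : ℝ)))
    (hb2 : b ^ 2 = ∑ j : Fin B × Fin B, Vr (bw (h ^ 2))
      (fun ω : Site N → Bool => Fj Fn h rs j ω - α * (Nj rs j ω : ℝ)))
    (hbc : c * (B * (rs * h)) ≤ b) (hβ : KK C' c T * ((rs * h) ^ 9 / B) ≤ 1 / 64)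
    {t u : ℝ} (ht : |t| ≤ T) (hu : |u| ≤ T) :
    ‖Ee (h ^ 2) (fun ω : Site N → Bool => Complex.exp (Complex.I *
        ((t * (Sw Fn h rs B ω - Ex (bw (h ^ 2)) (fun ω : Site N → Bool => Sw Fn h rs B ω)
          - α * ((Nw ω : ℝ) - (B * (rs * h)) ^ 2)) / b
        + u * ((Nw ω : ℝ) - (B * (rs * h)) ^ 2) / (B * (rs * h)) : ℝ) : ℂ)))
      - Complex.exp (-((t ^ 2 + u ^ 2 * (1 - h ^ 2)) / 2 : ℝ))‖
    ≤ 10 * (KK C' c T * ((rs * h) ^ 9 / B) * (1 + 2 * T ^ 2) + (1 / 2) ^ (B * B)) := by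
  have hw : IsWt (bw (h ^ 2) : Site N → Bool → ℝ) := isWt_bw (sq_nonneg _) (by linarith)
  have hBr : (0 : ℝ) < B := by exact_mod_cast hB
  have hr0 : 0 < (rs : ℝ) * h := by linarith
  have hb : 0 < b := lt_of_lt_of_le (by positivity) hbc
  have hT : 0 ≤ T := (abs_nonneg t).trans ht
  have hαb := alpha_bound hC' hB hh2 hr hm α hα
  have hbeta := beta_bound hC' hc hB hh2 hr hm hαb hbc ht hu
  have htau := tau_eq hB hh2 hr hm hα hb hb2 t u
  have : Nonempty (Fin B × Fin B) := ⟨(⟨0, hB⟩, ⟨0, hB⟩)⟩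
  have key := h1 (Site N) (Fin B × Fin B) (h ^ 2) (by positivity) hh2
    (fun j => (blk rs j).sites N) ?_ ?_ ?_ (xx Fn N B rs h α b t u) ?_ ?_ (hbeta.trans hβ)
  · rw [htau] at key
    have hfun : ∀ ω : Site N → Bool, (∑ j : Fin B × Fin B, xx Fn N B rs h α b t u j ω : ℝ)
      = t * (Sw Fn h rs B ω - Ex (bw (h ^ 2)) (fun ω : Site N → Bool => Sw Fn h rs B ω)
          - α * ((Nw ω : ℝ) - (B * (rs * h)) ^ 2)) / b
        + u * ((Nw ω : ℝ) - (B * (rs * h)) ^ 2) / (B * (rs * h)) :=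
      fun ω => sum_xx hN hrs hm t u ω
    simp only [hfun] at key
    have hcard : Fintype.card (Fin B × Fin B) = B * B := by simp [Fintype.card_prod]
    rw [hcard] at key
    have hexp : Complex.exp (-((t ^ 2 + u ^ 2 * (1 - h ^ 2) : ℝ) : ℂ) / 2)
        = Complex.exp (-((t ^ 2 + u ^ 2 * (1 - h ^ 2)) / 2 : ℝ)) := by
      congr 1; push_cast; ring
    rw [hexp] at key
    refine le_trans (le_of_eq ?_) (key.trans ?_)
    · rfl
    · have hτ : 1 + (t ^ 2 + u ^ 2 * (1 - h ^ 2)) ≤ 1 + 2 * T ^ 2 := by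
        have ht2 : t ^ 2 ≤ T ^ 2 := sq_le_sq' (by linarith [neg_abs_le t]) ((le_abs_self t).trans ht)
        have hu2 : u ^ 2 ≤ T ^ 2 := sq_le_sq' (by linarith [neg_abs_le u]) ((le_abs_self u).trans hu)
        nlinarith [sq_nonneg (u * h)]
      have hτ0 : 0 ≤ 1 + (t ^ 2 + u ^ 2 * (1 - h ^ 2)) := by
        have : 0 ≤ 1 - h ^ 2 := by linarith
        positivity
      have hβ0 : 0 ≤ KK C' c T * ((rs * h) ^ 9 / B) := by
        unfold KK; positivity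
      have := mul_le_mul hbeta hτ hτ0 hβ0
      linarith
  · intro i j hij
    rw [Finset.disjoint_left]
    intro v hv hv'
    rw [mem_sites_iff hN hrs] at hv hv'
    exact hij (hv.symm.trans hv')
  · intro v
    exact ⟨bOf hN v, (mem_sites_iff hN hrs v _).mpr rfl⟩
  · intro j
    have hc1 := card_sites (rs := rs) hN j
    have hp0 : 0 ≤ 1 - 2 * h ^ 2 := by linarith
    have hp1 : 1 - 2 * h ^ 2 ≤ 1 := by nlinarith [sq_nonneg h]
    refine (pow_le_pow_of_le_one hp0 hp1 hc1).trans ?_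
    have e1 : 1 - 2 * h ^ 2 ≤ Real.exp (-(2 * h ^ 2)) := by
      have := Real.add_one_le_exp (-(2 * h ^ 2)); linarith
    refine (pow_le_pow_left₀ hp0 e1 _).trans ?_
    rw [← Real.exp_nat_mul]
    have e2 : ((rs * rs : ℕ) : ℝ) * (-(2 * h ^ 2)) ≤ -2 := by
      push_cast
      nlinarith
    refine (Real.exp_le_exp.mpr e2).trans ?_
    have e3 : (4 : ℝ) ≤ Real.exp 2 := by
      have := Real.add_one_le_exp (1 : ℝ)
      have e4 : Real.exp 2 = Real.exp 1 * Real.exp 1 := by rw [← Real.exp_add]; norm_num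
      rw [e4]; nlinarith
    rw [Real.exp_neg]
    rw [inv_eq_one_div]
    exact one_div_le_one_div_of_le (by norm_num) e3
  · intro j x y hxy
    unfold xx
    have e1 := Fj_dependsOn Fn h rs (N := N) j hxy
    have e2 : (Nj rs j x : ℝ) = (Nj rs j y : ℝ) := cnt_dependsOn ((blk rs j).sites N) hxy
    simp only [e1, e2]
  · intro j
    unfold xx
    simp only [Ex_add, Ex_mul_left, Ex_sub, Ex_const hw, sub_self, mul_zero, add_zero]

end core

theorem sumJCLT (h1 : Spec_blockCLT) (h2 : Spec_moments) (h3 : Spec_asymp) (h4 : Spec_bbLower) :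
    Spec_sumJCLT := by
  intro Fn C hG T ε hT hε
  obtain ⟨C', hC', hmom⟩ := h2 Fn C hG
  obtain ⟨c, hc, hbb⟩ := h4 Fn C hG
  obtain ⟨hBn, hrr, hr9, -, -, hall⟩ := h3
  have ev1 : ∀ᶠ n : ℕ in atTop, KK C' c T * (rr n ^ 9 / Bn n) ≤ 1 / 64 := by
    have := hr9.const_mul (KK C' c T)
    rw [mul_zero] at this
    exact (this.eventually (gt_mem_nhds (by norm_num : (0 : ℝ) < 1 / 64))).mono fun n hn => hn.le
  have ev2 : ∀ᶠ n : ℕ in atTop,
      10 * (KK C' c T * (rr n ^ 9 / Bn n) * (1 + 2 * T ^ 2) + (1 / 2) ^ (Bn n * Bn n)) ≤ ε / 2 := by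
    have a1 := (hr9.const_mul (KK C' c T)).mul_const (1 + 2 * T ^ 2)
    rw [mul_zero, zero_mul] at a1
    have a2 : Tendsto (fun n : ℕ => ((1 : ℝ) / 2) ^ (Bn n * Bn n)) atTop (𝓝 0) := by
      refine (tendsto_pow_atTop_nhds_zero_of_lt_one (by norm_num) (by norm_num)).comp ?_
      exact hBn.atTop_mul_atTop₀ hBn
    have a3 := (a1.add a2).const_mul 10
    rw [add_zero, mul_zero] at a3
    exact (a3.eventually (gt_mem_nhds (by linarith : (0 : ℝ) < ε / 2))).mono fun n hn => hn.le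
  have ev3 : ∀ᶠ n : ℕ in atTop, T ^ 2 * hn n ^ 2 / 2 ≤ ε / 2 := by
    have a1 : Tendsto (fun n : ℕ => T ^ 2 / (n : ℝ)) atTop (𝓝 0) :=
      tendsto_const_nhds.div_atTop tendsto_natCast_atTop_atTop
    filter_upwards [a1.eventually (gt_mem_nhds hε), hall, eventually_ge_atTop 1] with n hn1 hn2 hn3
    obtain ⟨g1, g2, g3, g4, -, -, -, g8, -⟩ := hn2
    have hn0 : (0 : ℝ) < n := by exact_mod_cast hn3
    have hNN : (n : ℝ) ^ 4 ≤ NN n := by exact_mod_cast g8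
    have hn1' : (1 : ℝ) ≤ n := by exact_mod_cast hn3
    have e1 : (NN n : ℝ) ^ 2 * hn n ^ 2 = n := by
      rw [← mul_pow, g4, Real.sq_sqrt hn0.le]
    have e2 : (n : ℝ) ^ 2 ≤ (NN n : ℝ) ^ 2 := by
      have : (n : ℝ) ≤ (n : ℝ) ^ 4 := by
        calc (n : ℝ) = (n : ℝ) ^ 1 := (pow_one _).symm
          _ ≤ (n : ℝ) ^ 4 := pow_le_pow_right₀ hn1' (by norm_num)
      exact pow_le_pow_left₀ hn0.le (this.trans hNN) 2
    have e3 : hn n ^ 2 ≤ 1 / n := by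
      rw [le_div_iff₀ hn0]
      have : (n : ℝ) ^ 2 * hn n ^ 2 ≤ n := by
        calc _ ≤ (NN n : ℝ) ^ 2 * hn n ^ 2 := mul_le_mul_of_nonneg_right e2 (sq_nonneg _)
          _ = n := e1
      nlinarith
    have e4 : T ^ 2 * hn n ^ 2 ≤ T ^ 2 / n := by
      rw [div_eq_mul_one_div]
      exact mul_le_mul_of_nonneg_left e3 (sq_nonneg _)
    linarith
  filter_upwards [ev1, ev2, ev3, hall, hbb, hrr.eventually_ge_atTop 1, eventually_ge_atTop 1]
    with n g1 g2 g3 g4 g5 g6 g7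
  obtain ⟨k1, k2, k3, k4, k5, k6, k7, k8, -⟩ := g4
  intro t u ht hu
  have hn0 : (0 : ℝ) ≤ n := Nat.cast_nonneg n
  have hrs : 0 < rsn n := by
    unfold rsn; exact Nat.mul_pos k7 (Nat.factorial_pos n)
  have hsq : ((Bn n : ℝ) * ((rsn n : ℝ) * hn n)) ^ 2 = n := by
    have : (Bn n : ℝ) * ((rsn n : ℝ) * hn n) = Real.sqrt n := k5
    rw [this, Real.sq_sqrt hn0]
  have hsq1 : (Bn n : ℝ) * ((rsn n : ℝ) * hn n) = Real.sqrt n := k5
  have hm : Mom Fn C' (NN n) (Bn n) (rsn n) (hn n) := by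
    have := fun j => hmom (NN n) (Bn n) (rsn n) (hn n) j rfl k1 g6 k2
    exact ⟨fun j => (this j).1, fun j => (this j).2.1, fun j => (this j).2.2.1,
      fun j => (this j).2.2.2.1, fun j => (this j).2.2.2.2⟩
  have hVpos : 0 < ∑ j : Fin (Bn n) × Fin (Bn n), Vr (bw (hn n ^ 2))
      (fun ω : Site (NN n) → Bool => (Nj (rsn n) j ω : ℝ)) := by
    have : Nonempty (Fin (Bn n) × Fin (Bn n)) := ⟨(⟨0, k6⟩, ⟨0, k6⟩)⟩
    refine sum_pos (fun j _ => ?_) univ_nonempty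
    rw [hm.m4 j]
    have e1 : (0 : ℝ) < ((rsn n : ℝ) * hn n) ^ 2 := by
      have : (1 : ℝ) ≤ (rsn n : ℝ) * hn n := g6
      positivity
    exact mul_pos e1 (by linarith)
  have hα : alph Fn n * ∑ j : Fin (Bn n) × Fin (Bn n), Vr (bw (hn n ^ 2))
      (fun ω : Site (NN n) → Bool => (Nj (rsn n) j ω : ℝ))
      = ∑ j : Fin (Bn n) × Fin (Bn n), Cv (bw (hn n ^ 2))
        (fun ω : Site (NN n) → Bool => Fj Fn (hn n) (rsn n) j ω)
        (fun ω => (Nj (rsn n) j ω : ℝ)) := by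
    unfold alph
    exact div_mul_cancel₀ _ hVpos.ne'
  have hbsq : 0 ≤ bsq Fn n := by
    unfold bsq
    exact sum_nonneg fun j _ => Vr_nonneg (isWt_bw (sq_nonneg _) (by linarith)) _
  have hb2 : bb Fn n ^ 2 = ∑ j : Fin (Bn n) × Fin (Bn n), Vr (bw (hn n ^ 2))
      (fun ω : Site (NN n) → Bool => Fj Fn (hn n) (rsn n) j ω - alph Fn n * (Nj (rsn n) j ω : ℝ)) := by
    unfold bb
    rw [Real.sq_sqrt hbsq]
    rfl
  have hbc : c * ((Bn n : ℝ) * ((rsn n : ℝ) * hn n)) ≤ bb Fn n := by rw [hsq1]; exact g5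
  have key := core h1 hC' hc (N := NN n) (B := Bn n) (rs := rsn n) (h := hn n) rfl hrs k1 k6 k2 g6
    hm hα hb2 hbc g1 ht hu
  rw [hsq, hsq1] at key
  have hfin : ‖Complex.exp (-((t ^ 2 + u ^ 2 * (1 - hn n ^ 2)) / 2 : ℝ))
      - Complex.exp (-((t ^ 2 + u ^ 2) / 2 : ℝ))‖ ≤ ε / 2 := by
    have e0 : 0 ≤ 1 - hn n ^ 2 := by linarith
    have := exp_sub_le (a := (t ^ 2 + u ^ 2 * (1 - hn n ^ 2)) / 2) (b := (t ^ 2 + u ^ 2) / 2)
      (by positivity) (by positivity)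
    rw [← Complex.ofReal_neg, ← Complex.ofReal_neg, ← Complex.ofReal_exp, ← Complex.ofReal_exp,
      ← Complex.ofReal_sub, Complex.norm_real, Real.norm_eq_abs]
    refine this.trans (le_trans ?_ g3)
    · have e1 : (t ^ 2 + u ^ 2 * (1 - hn n ^ 2)) / 2 - (t ^ 2 + u ^ 2) / 2
          = -(u ^ 2 * hn n ^ 2 / 2) := by ring
      rw [e1, abs_neg, abs_of_nonneg (by positivity)]
      have hu2 : u ^ 2 ≤ T ^ 2 := sq_le_sq' (by linarith [neg_abs_le u]) ((le_abs_self u).trans hu)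
      gcongr
  have htri := norm_sub_le_norm_sub_add_norm_sub
    (Ee (hn n ^ 2) (fun ω : Site (NN n) → Bool => Complex.exp (Complex.I *
        ((t * (Sw Fn (hn n) (rsn n) (Bn n) ω
            - Ex (bw (hn n ^ 2)) (fun ω : Site (NN n) → Bool => Sw Fn (hn n) (rsn n) (Bn n) ω)
            - alph Fn n * ((Nw ω : ℝ) - n)) / bb Fn n
          + u * ((Nw ω : ℝ) - n) / Real.sqrt n : ℝ) : ℂ))))
    (Complex.exp (-((t ^ 2 + u ^ 2 * (1 - hn n ^ 2)) / 2 : ℝ)))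
    (Complex.exp (-((t ^ 2 + u ^ 2) / 2 : ℝ)))
  have key2 := key.trans g2
  linarith

end

end Pool.Agent.Helper80.Matching
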